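import Mathlib
import Pool.Agent.H5.StsAct
import Pool.Agent.H5.CycDesDefs

namespace Pool.Agent.Results.MP_1dd1a8_co.Counter

open Finset Pool.Agent.H5.StsAct Pool.Agent.H5.CycDes

theorem bose_shift {A : Type} [CommRing A] [DecidableEq A] (hf : A) (h2 : 2 * hf = 1)
    (p q t : A × ZMod 3) : bose hf (p + t) (q + t) = bose hf p q + t := by
  have z : ∀ i j s : ZMod 3, -(i + s) - (j + s) = -i - j + s := by decide
  obtain ⟨x, i⟩ := p
  obtain ⟨y, j⟩ := q
  obtain ⟨a, s⟩ := t
  have e : (j + s = i + s + 1) ↔ j = i + 1 := by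
    constructor <;> intro h <;> linear_combination h
  simp only [bose, Prod.mk_add_mk, add_left_inj, e]
  split_ifs
  · simp only [Prod.mk_add_mk, z]
  · simp only [Prod.mk_add_mk, Prod.mk.injEq]
    exact ⟨by linear_combination a * h2, by ring⟩
  · simp only [Prod.mk_add_mk, Prod.mk.injEq, and_true]; ring
  · simp only [Prod.mk_add_mk, Prod.mk.injEq, and_true]; ring

theorem noSDR {v : ℕ} [NeZero v] (m : Finset (ZMod v) → ℕ) (hc : ∀ B, m B ≠ 0 → B.card = 3)
    (hd : ∀ d : ZMod v, d ≠ 0 → ∃ B, 2 ≤ m B ∧ (0 : ZMod v) ∈ B ∧ d ∈ B)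
    (s : ZMod v) (hs : s ≠ 0) (S : Finset (ZMod v)) (hS : 2 ≤ m S) (hSs : ∀ x ∈ S, x + s ∈ S) :
    ¬ HasSDR m := by
  classical
  rintro ⟨f, f1, f2, f3⟩
  have shc : ∀ (B : Finset (ZMod v)) t, (shift B t).card = B.card := fun B t =>
    card_image_of_injective _ (add_left_injective t)
  have shm : ∀ (B : Finset (ZMod v)) t x, x ∈ B → x + t ∈ shift B t := fun B t x hx =>
    mem_image_of_mem _ hx
  let r : ZMod v → ZMod v → Prop := fun d x => ∃ B i, i < m B ∧ x ∈ f B i ∧ x + d ∈ f B i
  have up : ∀ x, ((univ.erase (0 : ZMod v)).filter fun d => r d x).card ≤ 2 := by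
    intro x
    by_cases h : ∃ B i, i < m B ∧ x ∈ f B i
    · obtain ⟨B, i, hi, hx⟩ := h
      have c3 : (f B i).card = 3 := by
        obtain ⟨t, ht⟩ := f2 B i hi
        rw [ht, shc, hc B (by omega)]
      have : ((f B i).erase x).card = 2 := by rw [card_erase_of_mem hx, c3]
      rw [← this]
      refine card_le_card_of_injOn (fun d => x + d) ?_ (fun a _ b _ h => add_left_cancel h)
      intro d hd'
      simp only [coe_filter, mem_erase, mem_univ, and_true, Set.mem_ofPred_eq] at hd'
      obtain ⟨d0, B', i', hi', hx', hxd⟩ := hd'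
      have : f B' i' = f B i := by
        by_contra hne
        have := f3 B B' i i' hi hi' (by
          by_contra hcon
          push Not at hcon
          obtain ⟨⟨t, rfl⟩, rfl⟩ := hcon
          exact hne (by rw [f1]))
        exact disjoint_left.mp this hx hx'
      simp only [coe_erase, Set.mem_sdiff, mem_coe, Set.mem_singleton_iff, add_eq_left]
      exact ⟨this ▸ hxd, d0⟩
    · rw [filter_eq_empty_iff.mpr]
      · simp
      · rintro d _ ⟨B, i, hi, hx, _⟩
        exact h ⟨B, i, hi, hx⟩
  have lo : ∀ d, d ≠ 0 → 2 ≤ (univ.filter fun x => r d x).card := by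
    intro d d0
    obtain ⟨B, hB, h0, hdB⟩ := hd d d0
    obtain ⟨t0, ht0⟩ := f2 B 0 (by omega)
    obtain ⟨t1, ht1⟩ := f2 B 1 (by omega)
    have m0 : t0 ∈ f B 0 := by rw [ht0]; simpa using shm B t0 0 h0
    have m1 : t1 ∈ f B 1 := by rw [ht1]; simpa using shm B t1 0 h0
    have hdis := f3 B B 0 1 (by omega) (by omega) (Or.inr (by omega))
    refine one_lt_card.mpr ⟨t0, ?_, t1, ?_, ?_⟩
    · simp only [mem_filter, mem_univ, true_and]
      exact ⟨B, 0, by omega, m0, by rw [ht0, add_comm]; exact shm B t0 d hdB⟩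
    · simp only [mem_filter, mem_univ, true_and]
      exact ⟨B, 1, by omega, m1, by rw [ht1, add_comm]; exact shm B t1 d hdB⟩
    · rintro rfl; exact disjoint_left.mp hdis m0 m1
  have los : 6 ≤ (univ.filter fun x => r s x).card := by
    have hdis := f3 S S 0 1 (by omega) (by omega) (Or.inr (by omega))
    have key : ∀ i, i < m S → (f S i).card = 3 ∧ f S i ⊆ univ.filter fun x => r s x := by
      intro i hi
      obtain ⟨t, ht⟩ := f2 S i hi
      refine ⟨by rw [ht, shc, hc S (by omega)], fun x hx => ?_⟩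
      simp only [mem_filter, mem_univ, true_and]
      refine ⟨S, i, hi, hx, ?_⟩
      rw [ht] at hx ⊢
      obtain ⟨y, hy, rfl⟩ := mem_image.mp hx
      have := shm S t _ (hSs y hy)
      rwa [add_right_comm] at this
    have := card_le_card (union_subset (key 0 (by omega)).2 (key 1 (by omega)).2)
    rw [card_union_of_disjoint hdis, (key 0 (by omega)).1, (key 1 (by omega)).1] at this
    exact this
  have dc := sum_card_bipartiteAbove_eq_sum_card_bipartiteBelow (s := univ.erase (0 : ZMod v))
    (t := univ) (r := r)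
  simp only [bipartiteAbove, bipartiteBelow] at dc
  have h1 := sum_le_card_nsmul univ _ 2 (fun x _ => up x)
  have hsm : s ∈ univ.erase (0 : ZMod v) := by simp [hs]
  have h2 := card_nsmul_le_sum ((univ.erase (0 : ZMod v)).erase s) _ 2
    (fun d hd' => lo d (mem_erase.mp (mem_erase.mp hd').2).1)
  rw [← add_sum_erase _ _ hsm] at dc
  rw [card_erase_of_mem hsm, card_erase_of_mem (mem_univ _)] at h2
  have h3 : 1 < (univ : Finset (ZMod v)).card := one_lt_card.mpr ⟨s, by simp, 0, by simp, hs⟩
  simp only [smul_eq_mul] at h1 h2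
  omega

theorem result : ∀ N : ℕ, ∃ (v : ℕ) (_ : NeZero v), N ≤ v ∧
    ∃ m : Finset (ZMod v) → ℕ, IsCyclicDesign v 3 2 m ∧ ¬ HasSDR m := by
  classical
  intro N
  have hcop : Nat.Coprime (6 * N + 1) 3 := by
    rw [Nat.coprime_comm, Nat.Prime.coprime_iff_not_dvd Nat.prime_three]; omega
  let e := ZMod.chineseRemainder hcop
  have h2 : (2 : ZMod (6 * N + 1)) * ((3 * N + 1 : ℕ) : ZMod (6 * N + 1)) = 1 := by
    have : (((6 * N + 1 : ℕ)) : ZMod (6 * N + 1)) = 0 := ZMod.natCast_self _
    push_cast at this ⊢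
    linear_combination this
  have b := bose_sq _ h2
  let op : ZMod ((6 * N + 1) * 3) → ZMod ((6 * N + 1) * 3) → ZMod ((6 * N + 1) * 3) :=
    fun x y => e.symm (bose ((3 * N + 1 : ℕ) : ZMod (6 * N + 1)) (e x) (e y))
  have hop : IsSQ op := by
    refine ⟨?_, ?_, ?_⟩
    · intro x; simp only [op]; rw [b.idem]; simp
    · intro x y; simp only [op]; rw [b.comm]
    · intro x y; simp only [op]; rw [e.apply_symm_apply, b.canc]; simp
  have hsh : ∀ x y t, op (x + t) (y + t) = op x y + t := by
    intro x y t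
    simp only [op, map_add, bose_shift _ h2, RingEquiv.symm_apply_apply]
  let 𝓑 : Finset (ZMod ((6 * N + 1) * 3)) → Prop := fun B => ∃ x y, x ≠ y ∧ B = {x, y, op x y}
  have ne1 : ∀ x y, x ≠ y → x ≠ op x y := by
    intro x y hxy he
    apply hxy
    have := hop.canc x y
    rw [← he, hop.idem] at this
    exact this
  have c3 : ∀ B, 𝓑 B → B.card = 3 := by
    rintro _ ⟨u, w, h, rfl⟩
    refine card_eq_three.mpr ⟨u, w, op u w, h, ne1 u w h, ?_, rfl⟩
    rw [hop.comm u w]; exact ne1 w u h.symm
  have uniq : ∀ x y, x ≠ y → ∀ B, 𝓑 B → x ∈ B → y ∈ B → B = {x, y, op x y} := by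
    rintro x y hxy _ ⟨u, w, huw, rfl⟩ hx hy
    simp only [mem_insert, mem_singleton] at hx hy
    have c1 := hop.canc u w
    have c2 : op w (op u w) = u := by rw [hop.comm u w, hop.canc]
    rcases hx with rfl | rfl | rfl <;> rcases hy with rfl | rfl | rfl
    · exact absurd rfl hxy
    · rfl
    · rw [c1]; ext z; simp only [mem_insert, mem_singleton]; tauto
    · rw [hop.comm x y]; ext z; simp only [mem_insert, mem_singleton]; tauto
    · exact absurd rfl hxy
    · rw [c2]; ext z; simp only [mem_insert, mem_singleton]; tauto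
    · rw [hop.comm (op y w) y, c1]; ext z; simp only [mem_insert, mem_singleton]; tauto
    · rw [hop.comm (op u y) y, c2]; ext z; simp only [mem_insert, mem_singleton]; tauto
    · exact absurd rfl hxy
  have sh1 : ∀ B t, 𝓑 B → 𝓑 (shift B t) := by
    rintro _ t ⟨u, w, h, rfl⟩
    exact ⟨u + t, w + t, fun h' => h (add_right_cancel h'), by simp [shift, hsh]⟩
  have sh2 : ∀ B t, 𝓑 (shift B t) ↔ 𝓑 B := by
    intro B t
    refine ⟨fun h => ?_, sh1 B t⟩
    have := sh1 _ (-t) h
    have e2 : shift (shift B t) (-t) = B := by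
      unfold shift
      rw [image_image]
      simp only [Function.comp_def, add_neg_cancel_right, image_id']
    rwa [e2] at this
  have hc : ∀ B, (if 𝓑 B then 2 else 0) ≠ 0 → B.card = 3 := by
    intro B h; apply c3; by_contra h'; simp [h'] at h
  refine ⟨(6 * N + 1) * 3, inferInstance, by omega, fun B => if 𝓑 B then 2 else 0,
    ⟨hc, ?_, fun B t => by simp only [sh2]⟩, ?_⟩
  · intro x y hxy
    rw [sum_eq_single {x, y, op x y}]
    · rw [if_pos ⟨x, y, hxy, rfl⟩]
    · intro B hB hne
      simp only [mem_filter, mem_univ, true_and] at hB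
      rw [if_neg fun h => hne (uniq x y hxy B h hB.1 hB.2)]
    · intro h; simp at h
  · have s0 : e.symm (0, 1) ≠ 0 := by
      intro h
      have := congrArg e h
      rw [e.apply_symm_apply, map_zero] at this
      exact absurd (show (1 : ZMod 3) = 0 from congrArg Prod.snd this) (by decide)
    refine noSDR _ hc (fun d d0 => ⟨{0, d, op 0 d}, ?_, by simp, by simp⟩) (e.symm (0, 1)) s0
      {0, e.symm (0, 1), op 0 (e.symm (0, 1))} ?_ ?_
    · rw [if_pos ⟨0, d, d0.symm, rfl⟩]
    · rw [if_pos ⟨0, _, s0.symm, rfl⟩]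
    · have o : op 0 (e.symm (0, 1)) = e.symm (0, -1) := by
        simp only [op, map_zero, RingEquiv.apply_symm_apply, bose]; simp
      have z1 : (1 : ZMod 3) + 1 = -1 := by decide
      intro x hx
      rw [o] at hx ⊢
      simp only [mem_insert, mem_singleton] at hx ⊢
      rcases hx with rfl | rfl | rfl
      · simp
      · right; right; rw [← map_add]; simp [z1]
      · left; rw [← map_add]; simp

end Pool.Agent.Results.MP_1dd1a8_co.Counter
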